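import Pool.Agent.WAQ.StmtsR

/-!
# WAQ, row RCK: points `(P, k P)` near `(P0, Q0)` over the real numbers
-/

set_option autoImplicit false

namespace Pool.Agent.WAQ.H41

open Pool.Agent.WAQ Pool.Agent.WAQ.R Pool.Agent.WAQ.G

attribute [local instance 10000] Pool.Agent.WAQ.R.decR

variable [Par]

theorem big_neg {d : ℝ} {N : ℝ} {P : Pt d} (h : Big N P) : Big N (-P) := by
  rcases h with h | h
  · left
    rw [h, neg_zero]
  · right
    have h1 : xn (-P) = xn P := xn_neg P
    unfold xn at h1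
    rw [h1]
    exact h

theorem big_mono {d : ℝ} {N M : ℝ} (hNM : N ≤ M) {P : Pt d} (h : Big M P) : Big N P := by
  rcases h with h | h
  · exact Or.inl h
  · exact Or.inr (lt_of_le_of_lt hNM h)

/-- RCK -/
theorem rck (rco : RcoStmt) (rge : RgeStmt) (rnt : RntStmt) : RckStmt := by
  intro d hd P0 Q0 hPQ N k0 m hm
  obtain ⟨c1, c2, c3, ⟨N1, c4⟩, c5, c6⟩ := rco d hd
  obtain ⟨p, hp1, hp2⟩ := rnt d hd (max N N1)
  have hpN : Big N p := big_mono (le_max_left _ _) hp1
  have hpI : IdC p := c4 p (big_mono (le_max_right _ _) hp1)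
  have c7 : ∀ P : Pt d, ¬ IdC P → ¬ IdC (-P) := by
    intro P h1 h2
    apply h1
    have h3 := c6 (-P) h2
    rw [neg_neg] at h3
    exact h3
  -- the point P
  have hP : ∃ P : Pt d, Big N (P - P0) ∧ NTor P ∧ (IdC P ↔ IdC P0) := by
    by_cases ht : NTor P0
    · refine ⟨P0, ?_, ht, Iff.rfl⟩
      left
      rw [sub_self]
    · refine ⟨P0 + p, ?_, ?_, ?_⟩
      · have h1 : P0 + p - P0 = p := by abel
        rw [h1]
        exact hpN
      · unfold NTor at ht
        push Not at ht
        obtain ⟨a, ha, hs⟩ := ht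
        intro c hc h1
        apply hp2 (a * c) (mul_ne_zero ha hc)
        have h2 : sm a (sm c (P0 + p)) = 0 := by rw [h1, sm_zero]
        have h3 : sm a (sm c (P0 + p)) = sm c (sm a P0) + sm (a * c) p := by
          rw [sm_add, sm_add, ← mul_sm, ← mul_sm, ← mul_sm, mul_comm a c]
        rw [h3, hs, sm_zero, zero_add] at h2
        exact h2
      · constructor
        · intro h1
          have h2 := c2 _ _ h1 (c6 _ hpI)
          have h3 : P0 + p + -p = P0 := by abel
          rw [h3] at h2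
          exact h2
        · intro h1
          exact c2 _ _ h1 hpI
  obtain ⟨P, hPN, hPT, hPI⟩ := hP
  -- odd multiples
  have hodd : ∀ k : ℤ, Odd k → (IdC (sm k P) ↔ IdC P) := by
    intro k hk
    obtain ⟨t, rfl⟩ := hk
    have h1 : IdC (sm (2 * t) P) := c5 P (2 * t) (even_two_mul t)
    have h2 : sm (2 * t + 1) P = sm (2 * t) P + P := by
      rw [add_sm, one_sm]
    rw [h2]
    constructor
    · intro h3
      have h4 := c2 _ _ h3 (c6 _ h1)
      have h5 : sm (2 * t) P + P + -sm (2 * t) P = P := by abel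
      rw [h5] at h4
      exact h4
    · intro h3
      exact c2 _ _ h1 h3
  have hk1 : ∃ k1 : ℤ, m ∣ k1 - k0 ∧ IdC (Q0 - sm k1 P) := by
    by_cases hI : IdC P0
    · have hQ := hPQ hI
      have hP' := hPI.2 hI
      refine ⟨k0, by simp, ?_⟩
      rw [sub_eq_add_neg]
      apply c2 _ _ hQ (c6 _ _)
      rcases Int.even_or_odd k0 with h | h
      · exact c5 P k0 h
      · exact (hodd k0 h).2 hP'
    · have hP' : ¬ IdC P := fun h => hI (hPI.1 h)
      by_cases hQ : IdC Q0
      · have h1 : ∃ k1 : ℤ, m ∣ k1 - k0 ∧ Even k1 := by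
          rcases Int.even_or_odd k0 with h | h
          · exact ⟨k0, by simp, h⟩
          · exact ⟨k0 + m, by simp, h.add_odd hm⟩
        obtain ⟨k1, h2, h3⟩ := h1
        refine ⟨k1, h2, ?_⟩
        rw [sub_eq_add_neg]
        exact c2 _ _ hQ (c6 _ (c5 P k1 h3))
      · have h1 : ∃ k1 : ℤ, m ∣ k1 - k0 ∧ Odd k1 := by
          rcases Int.even_or_odd k0 with h | h
          · exact ⟨k0 + m, by simp, h.add_odd hm⟩
          · exact ⟨k0, by simp, h⟩
        obtain ⟨k1, h2, h3⟩ := h1
        refine ⟨k1, h2, ?_⟩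
        rw [sub_eq_add_neg]
        apply c3 _ _ hQ (c7 _ _)
        intro h4
        exact hP' ((hodd k1 h3).1 h4)
  obtain ⟨k1, hk2, hk3⟩ := hk1
  have hm0 : m ≠ 0 := by
    rintro rfl
    exact absurd hm (by decide)
  have hNT : NTor (sm m P) := by
    intro a ha h1
    apply hPT (a * m) (mul_ne_zero ha hm0)
    rw [mul_sm]
    exact h1
  obtain ⟨n, hn⟩ := rge d hd (sm m P) hNT (Q0 - sm k1 P) hk3 N
  refine ⟨k1 + n * m, P, ?_, hPN, ?_⟩
  · have h1 : k1 + n * m - k0 = (k1 - k0) + n * m := by ring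
    rw [h1]
    exact dvd_add hk2 (dvd_mul_left m n)
  · have h1 : sm (k1 + n * m) P - Q0 = -(Q0 - sm k1 P - sm n (sm m P)) := by
      rw [add_sm, mul_sm]
      abel
    rw [h1]
    exact big_neg hn

end Pool.Agent.WAQ.H41
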